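import Mathlib

set_option autoImplicit false

namespace Pool.Agent.Results.MP_4101c8_co.ACompl

open Classical Finset

/-- `S` is a total dominating set of `G`: every vertex has a neighbour in `S`. -/
def IsTDS {V : Type} (G : SimpleGraph V) (S : Finset V) : Prop := ∀ v : V, ∃ u ∈ S, G.Adj v u

/-- The total domination number: the least size of a total dominating set. -/
noncomputable def gammaT {V : Type} (G : SimpleGraph V) : ℕ :=
  sInf {m : ℕ | ∃ S : Finset V, IsTDS G S ∧ S.card = m}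

/-- The smaller of the minimum degrees of `G` and of its complement. -/
noncomputable def deltaStar {V : Type} [Fintype V] (G : SimpleGraph V) : ℕ :=
  min G.minDegree Gᶜ.minDegree

/-- Point `i` lies outside the Fano line `j`. -/
def off (i j : Fin 7) : Prop := j - i = 2 ∨ j - i = 4 ∨ j - i = 5 ∨ j - i = 6

instance (i j : Fin 7) : Decidable (off i j) := by unfold off; infer_instance

/-- Adjacency in the bipartite complement of the Heawood graph. -/
def adj14 (x y : Bool × Fin 7) : Prop :=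
  (x.1 = false ∧ y.1 = true ∧ off x.2 y.2) ∨ (x.1 = true ∧ y.1 = false ∧ off y.2 x.2)

instance (x y : Bool × Fin 7) : Decidable (adj14 x y) := by unfold adj14; infer_instance

theorem adj14_symm : ∀ x y, adj14 x y → adj14 y x := by decide

theorem adj14_irrefl : ∀ x, ¬ adj14 x x := by decide

theorem adj14_card : ∀ x : Bool × Fin 7, (univ.filter (fun y => adj14 x y)).card = 4 := by decide

theorem adj14_two : ∀ (b : Bool) (i j : Fin 7), ∃ x : Bool × Fin 7, x.1 = !b ∧
    ¬ adj14 x (b, i) ∧ ¬ adj14 x (b, j) := by decide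

theorem adj14_side : ∀ x y, adj14 x y → y.1 = !x.1 := by decide

theorem adj14_dom : ∀ x : Bool × Fin 7, ∃ y : Bool × Fin 7, y.2.val < 3 ∧ adj14 x y := by decide

/-- Disjoint union of `k` copies. -/
def H (k : ℕ) : SimpleGraph (Fin k × Bool × Fin 7) where
  Adj x y := x.1 = y.1 ∧ adj14 x.2 y.2
  symm := ⟨fun _ _ h => ⟨h.1.symm, adj14_symm _ _ h.2⟩⟩
  loopless := ⟨fun _ h => adj14_irrefl _ h.2⟩

theorem H_degree (k : ℕ) (v : Fin k × Bool × Fin 7) : (H k).degree v = 4 := by
  rw [← SimpleGraph.card_neighborFinset_eq_degree, ← adj14_card v.2]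
  symm
  apply Finset.card_bij (fun y _ => (v.1, y))
  · intro y hy
    simp only [mem_filter, mem_univ, true_and] at hy
    simp only [SimpleGraph.mem_neighborFinset]
    exact ⟨rfl, hy⟩
  · intro a _ b _ h
    exact (Prod.ext_iff.1 h).2
  · intro w hw
    simp only [SimpleGraph.mem_neighborFinset] at hw
    refine ⟨w.2, by simpa using hw.2, ?_⟩
    exact Prod.ext hw.1 rfl

theorem card_V (k : ℕ) : Fintype.card (Fin k × Bool × Fin 7) = 14 * k := by
  simp [Fintype.card_prod]; ring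

theorem fibre_three {k : ℕ} {S : Finset (Fin k × Bool × Fin 7)} (hS : IsTDS (H k) S)
    (c : Fin k) (b : Bool) : 3 ≤ (S.filter (fun x => (x.1, x.2.1) = (c, b))).card := by
  by_contra hlt
  have hle : (S.filter (fun x => (x.1, x.2.1) = (c, b))).card ≤ 2 := by omega
  have hex : ∃ i j : Fin 7, ∀ x ∈ S.filter (fun x => (x.1, x.2.1) = (c, b)),
      x.2.2 = i ∨ x.2.2 = j := by
    set T := S.filter (fun x => (x.1, x.2.1) = (c, b))
    rcases Nat.le_iff_lt_or_eq.1 hle with h | h
    · have h1 : T.card ≤ 1 := by omega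
      rcases T.eq_empty_or_nonempty with h0 | ⟨x, hx⟩
      · exact ⟨0, 0, by simp [h0]⟩
      · exact ⟨x.2.2, x.2.2, fun y hy => Or.inl (by rw [Finset.card_le_one.1 h1 y hy x hx])⟩
    · obtain ⟨x, y, _, hT⟩ := Finset.card_eq_two.1 h
      refine ⟨x.2.2, y.2.2, fun z hz => ?_⟩
      rw [hT] at hz
      rcases Finset.mem_insert.1 hz with h | h
      · exact Or.inl (by rw [h])
      · exact Or.inr (by rw [Finset.mem_singleton.1 h])
  obtain ⟨i, j, hij⟩ := hex
  obtain ⟨x, hx, h1, h2⟩ := adj14_two b i j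
  obtain ⟨u, hu, hadj⟩ := hS (c, x)
  have hu1 : u.1 = c := hadj.1.symm
  have hu2 : u.2.1 = b := by
    have := adj14_side _ _ hadj.2
    simp only at this
    rw [this, hx]; simp
  have hm : u ∈ S.filter (fun x => (x.1, x.2.1) = (c, b)) := by
    simp only [mem_filter]
    exact ⟨hu, by rw [hu1, hu2]⟩
  have hadj2 : adj14 x u.2 := hadj.2
  rcases hij u hm with h | h
  · apply h1
    have : u.2 = (b, i) := Prod.ext hu2 h
    rwa [this] at hadj2
  · apply h2
    have : u.2 = (b, j) := Prod.ext hu2 h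
    rwa [this] at hadj2

theorem H_lower {k : ℕ} {S : Finset (Fin k × Bool × Fin 7)} (hS : IsTDS (H k) S) :
    6 * k ≤ S.card := by
  have h := Finset.card_eq_sum_card_fiberwise (s := S) (t := (univ : Finset (Fin k × Bool)))
    (f := fun x => (x.1, x.2.1)) (fun _ _ => by simp)
  rw [h]
  calc 6 * k = ∑ _y : Fin k × Bool, 3 := by simp [Fintype.card_prod]; ring
    _ ≤ _ := Finset.sum_le_sum (fun y _ => fibre_three hS y.1 y.2)

theorem H_upper (k : ℕ) : ∃ S : Finset (Fin k × Bool × Fin 7), IsTDS (H k) S ∧ S.card = 6 * k := by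
  refine ⟨univ ×ˢ (univ.filter (fun y : Bool × Fin 7 => y.2.val < 3)), ?_, ?_⟩
  · intro v
    obtain ⟨y, hy, hadj⟩ := adj14_dom v.2
    exact ⟨(v.1, y), by simp [hy], ⟨rfl, hadj⟩⟩
  · have : (univ.filter (fun y : Bool × Fin 7 => y.2.val < 3)).card = 6 := by decide
    rw [Finset.card_product, this]; simp; ring

theorem gammaT_eq {V : Type} (G : SimpleGraph V) (m : ℕ)
    (h1 : ∃ S : Finset V, IsTDS G S ∧ S.card = m) (h2 : ∀ S : Finset V, IsTDS G S → m ≤ S.card) :
    gammaT G = m := by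
  unfold gammaT
  apply le_antisymm
  · exact Nat.sInf_le h1
  · apply le_csInf ⟨m, h1⟩
    rintro _ ⟨S, hS, rfl⟩
    exact h2 S hS

theorem gammaT_H (k : ℕ) : gammaT (H k) = 6 * k :=
  gammaT_eq _ _ (H_upper k) (fun _ h => H_lower h)

theorem compl_adj {k : ℕ} {x y : Fin k × Bool × Fin 7} (h : x.1 ≠ y.1) : (H k)ᶜ.Adj x y := by
  rw [SimpleGraph.compl_adj]
  exact ⟨fun e => h (by rw [e]), fun e => h e.1⟩

theorem gammaT_compl {k : ℕ} (hk : 2 ≤ k) : gammaT (H k)ᶜ = 2 := by
  apply gammaT_eq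
  · refine ⟨{(⟨0, by omega⟩, false, 0), (⟨1, by omega⟩, false, 0)}, ?_, ?_⟩
    · intro v
      by_cases hv : v.1 = ⟨0, by omega⟩
      · refine ⟨(⟨1, by omega⟩, false, 0), by simp, compl_adj ?_⟩
        rw [hv]; simp
      · exact ⟨(⟨0, by omega⟩, false, 0), by simp, compl_adj hv⟩
    · rw [Finset.card_pair]; simp
  · intro S hS
    obtain ⟨u, hu, _⟩ := hS (⟨0, by omega⟩, false, 0)
    obtain ⟨w, hw, hadj⟩ := hS u
    have : 1 < S.card := Finset.one_lt_card.2 ⟨u, hu, w, hw, hadj.ne⟩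
    omega

theorem compl_connected {k : ℕ} (hk : 2 ≤ k) : (H k)ᶜ.Connected := by
  have : Nonempty (Fin k × Bool × Fin 7) := ⟨(⟨0, by omega⟩, false, 0)⟩
  refine ⟨fun x y => ?_⟩
  by_cases h : x.1 = y.1
  · obtain ⟨c, hc⟩ : ∃ c : Fin k, c ≠ x.1 := by
      by_cases hx : x.1 = ⟨0, by omega⟩
      · exact ⟨⟨1, by omega⟩, by rw [hx]; simp⟩
      · exact ⟨⟨0, by omega⟩, fun e => hx e.symm⟩
    have h1 : (H k)ᶜ.Adj x (c, false, 0) := compl_adj hc.symm
    have h2 : (H k)ᶜ.Adj (c, false, 0) y := compl_adj (by rw [← h]; exact hc)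
    exact h1.reachable.trans h2.reachable
  · exact (compl_adj h).reachable

theorem minDegree_const {V : Type} [Fintype V] [Nonempty V] (G : SimpleGraph V)
    [DecidableRel G.Adj] (d : ℕ) (h : ∀ v, G.degree v = d) : G.minDegree = d := by
  obtain ⟨v, hv⟩ := G.exists_minimal_degree_vertex
  rw [hv, h]

theorem deltaStar_eq {V : Type} [Fintype V] [Nonempty V] (G : SimpleGraph V) (a b : ℕ)
    (h1 : ∀ v, (G.neighborSet v).ncard = a) (h2 : ∀ v, (Gᶜ.neighborSet v).ncard = b) :
    deltaStar G = min a b := by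
  unfold deltaStar
  congr 1
  · apply minDegree_const
    intro v
    rw [← h1 v, ← SimpleGraph.card_neighborFinset_eq_degree, ← Set.ncard_coe_finset]
    simp
  · apply minDegree_const
    intro v
    rw [← h2 v, ← SimpleGraph.card_neighborFinset_eq_degree, ← Set.ncard_coe_finset]
    simp

theorem ncard_eq_degree {V : Type} (G : SimpleGraph V) (v : V) [Fintype (G.neighborSet v)] :
    (G.neighborSet v).ncard = G.degree v := by
  rw [← SimpleGraph.card_neighborFinset_eq_degree, ← Set.ncard_coe_finset]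
  simp

theorem deltaStar_compl {k : ℕ} (hk : 2 ≤ k) : deltaStar (H k)ᶜ = 4 := by
  have : Nonempty (Fin k × Bool × Fin 7) := ⟨(⟨0, by omega⟩, false, 0)⟩
  rw [deltaStar_eq (H k)ᶜ (14 * k - 1 - 4) 4]
  · omega
  · intro v
    have := SimpleGraph.degree_compl (H k) v
    rw [card_V, H_degree] at this
    rw [ncard_eq_degree, this]
  · intro v
    rw [compl_compl, ncard_eq_degree, H_degree]

/-- For every `k ≥ 2` there is a connected graph `G` of order `n = 14 k` with `δ*(G) = 4`,
`γₜ(G) = 2` and `γₜ(Gᶜ) = 6 k`; hence the sum exceeds `2 n / 5 + 2` and the product exceeds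
`4 n / 5`. -/
theorem result (k : ℕ) (hk : 2 ≤ k) :
    ∃ (V : Type) (_ : Fintype V) (G : SimpleGraph V),
      Fintype.card V = 14 * k ∧ G.Connected ∧ deltaStar G = 4 ∧
      gammaT G = 2 ∧ gammaT Gᶜ = 6 * k ∧
      2 * (Fintype.card V : ℚ) / 5 + 2 < (gammaT G : ℚ) + (gammaT Gᶜ : ℚ) ∧
      4 * (Fintype.card V : ℚ) / 5 < (gammaT G : ℚ) * (gammaT Gᶜ : ℚ) := by
  have hq : (2 : ℚ) ≤ k := by exact_mod_cast hk
  refine ⟨Fin k × Bool × Fin 7, inferInstance, (H k)ᶜ, card_V k, compl_connected hk,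
    deltaStar_compl hk, gammaT_compl hk, ?_, ?_, ?_⟩
  · rw [compl_compl, gammaT_H]
  · rw [compl_compl, gammaT_H, gammaT_compl hk, card_V]
    push_cast
    linarith
  · rw [compl_compl, gammaT_H, gammaT_compl hk, card_V]
    push_cast
    linarith

end Pool.Agent.Results.MP_4101c8_co.ACompl
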